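import Mathlib
import Pool.Agent.H.MP_505085_co.CaseOne

set_option autoImplicit false

namespace Pool.Agent.Results.MP_505085_co.AnyAlphabet

open Filter
open scoped ENNReal

/-- The factor `u_i u_{i+1} ⋯ u_{i+m-1}` of the infinite word `u`. -/
def factor {A : Type*} (u : ℕ → A) (i m : ℕ) : List A :=
  List.ofFn fun l : Fin m => u (i + l)

/-- The set `F_m(u)` of the factors of length `m`. -/
def factors {A : Type*} (u : ℕ → A) (m : ℕ) : Set (List A) :=
  Set.range fun i : ℕ => factor u i m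

/-- The recurrence function `R_u(n)`: the least `m` such that every factor of `u` of length `m`
contains every word of `F_n(u)` as a factor, and `∞` if there is no such `m`. -/
noncomputable def recurrence {A : Type*} (u : ℕ → A) (n : ℕ) : ℕ∞ :=
  ⨅ m ∈ {m : ℕ | ∀ v ∈ factors u m, ∀ w ∈ factors u n, w <:+: v}, (m : ℕ∞)

/-- The recurrence quotient `ρ_u = limsup R_u(n) / n`, a number in `[0, ∞]`. -/
noncomputable def quotient {A : Type*} (u : ℕ → A) : ℝ≥0∞ :=
  limsup (fun n : ℕ => (recurrence u n : ℝ≥0∞) / (n : ℝ≥0∞)) atTop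

/-- `u = vvv⋯` for a nonempty finite word `v` (of length `p`). -/
def PurelyPeriodic {A : Type*} (u : ℕ → A) : Prop :=
  ∃ p : ℕ, 0 < p ∧ ∀ i : ℕ, u (i + p) = u i

theorem offset {A : Type*} (u : ℕ → A) {i j m n : ℕ}
    (h : factor u i n <:+: factor u j m) :
    ∃ t : ℕ, t + n ≤ m ∧ ∀ l : ℕ, l < n → u (j + t + l) = u (i + l) := by
  obtain ⟨s, t', hst⟩ := h
  have hlen : s.length + n + t'.length = m := by
    have := congrArg List.length hst
    simp only [factor, List.length_append, List.length_ofFn] at this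
    exact this
  refine ⟨s.length, by omega, ?_⟩
  intro l hl
  have h1 : (s ++ factor u i n ++ t')[s.length + l]? = some (u (i + l)) := by
    rw [List.append_assoc, List.getElem?_append_right (by omega), Nat.add_sub_cancel_left,
      List.getElem?_append_left (by simp [factor, hl]), List.getElem?_eq_getElem
        (by simp [factor, hl])]
    simp [factor]
  rw [hst] at h1
  rw [List.getElem?_eq_getElem (by simp [factor]; omega)] at h1
  have h2 := Option.some.inj h1
  simp only [factor, List.getElem_ofFn] at h2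
  rw [← h2]
  congr 1
  omega

theorem exists_of_lt {A : Type*} (u : ℕ → A) (n : ℕ) (c : ℝ) (hc : 0 ≤ c) (hn : 0 < n)
    (h : (recurrence u n : ℝ≥0∞) / (n : ℝ≥0∞) < ENNReal.ofReal c) :
    ∃ m : ℕ, (m : ℝ) ≤ c * n ∧ ∀ i j : ℕ, ∃ t : ℕ, t + n ≤ m ∧
      ∀ l : ℕ, l < n → u (j + t + l) = u (i + l) := by
  have hn0 : (n : ℝ≥0∞) ≠ 0 := by simpa using hn.ne'
  have hnt : (n : ℝ≥0∞) ≠ ∞ := ENNReal.natCast_ne_top n
  have h1 : (recurrence u n : ℝ≥0∞) < ENNReal.ofReal c * n := by
    rwa [ENNReal.div_lt_iff (Or.inl hn0) (Or.inl hnt)] at h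
  have hne : recurrence u n ≠ ⊤ := by
    intro ht
    rw [ht] at h1
    simp at h1
  have hex : ∃ m ∈ {m : ℕ | ∀ v ∈ factors u m, ∀ w ∈ factors u n, w <:+: v},
      (m : ℕ∞) ≤ recurrence u n := by
    by_contra hcon
    push Not at hcon
    obtain ⟨r, hr⟩ := ENat.ne_top_iff_exists.1 hne
    have : ((r + 1 : ℕ) : ℕ∞) ≤ recurrence u n := by
      unfold recurrence
      refine le_iInf₂ fun m hm => ?_
      have h2 := hcon m hm
      rw [← hr] at h2
      have h3 : r < m := by exact_mod_cast h2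
      exact_mod_cast h3
    rw [← hr] at this
    have h4 : r + 1 ≤ r := by exact_mod_cast this
    omega
  obtain ⟨m, hm, hle⟩ := hex
  refine ⟨m, ?_, fun i j => offset u (hm _ ⟨j, rfl⟩ _ ⟨i, rfl⟩)⟩
  have h2 : ((m : ℕ∞) : ℝ≥0∞) ≤ (recurrence u n : ℝ≥0∞) := ENat.toENNReal_le.2 hle
  have h3 : (m : ℝ≥0∞) < ENNReal.ofReal c * n := by
    refine lt_of_le_of_lt ?_ h1
    simpa using h2
  have h4 : (m : ℝ≥0∞) = ENNReal.ofReal (m : ℝ) := (ENNReal.ofReal_natCast m).symm
  have h5 : ENNReal.ofReal c * n = ENNReal.ofReal (c * n) := by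
    rw [ENNReal.ofReal_mul hc, ENNReal.ofReal_natCast]
  rw [h4, h5] at h3
  exact ((ENNReal.ofReal_lt_ofReal_iff_of_nonneg (Nat.cast_nonneg m)).1 h3).le

/-- **Rauzy's conjecture**, over an arbitrary (finite or infinite) alphabet. -/
theorem result {A : Type*} (u : ℕ → A) (hu : ¬ PurelyPeriodic u) :
    ENNReal.ofReal ((5 + Real.sqrt 5) / 2) ≤ quotient u := by
  by_contra hcon
  rw [not_le] at hcon
  have h5 : 2 < Real.sqrt 5 := by
    rw [Real.lt_sqrt (by norm_num)]; norm_num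
  obtain ⟨q, hq1, hq2⟩ := exists_between hcon
  have hqt : q ≠ ∞ := ne_top_of_lt hq2
  set c : ℝ := max q.toReal 3 with hc
  have hcL : c < (5 + Real.sqrt 5) / 2 := by
    rw [hc]
    apply max_lt
    · rw [← ENNReal.ofReal_toReal hqt] at hq2
      exact (ENNReal.ofReal_lt_ofReal_iff (by positivity)).1 hq2
    · linarith
  have hc3 : 3 ≤ c := le_max_right _ _
  have hqc : q ≤ ENNReal.ofReal c := by
    rw [← ENNReal.ofReal_toReal hqt]
    exact ENNReal.ofReal_le_ofReal (le_max_left _ _)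
  have hev : ∀ᶠ n : ℕ in atTop, (recurrence u n : ℝ≥0∞) / (n : ℝ≥0∞) < q :=
    eventually_lt_of_limsup_lt hq1
  obtain ⟨N, hN⟩ := eventually_atTop.1 hev
  have key : ∀ n, max N 1 ≤ n → ∃ m : ℕ, (m : ℝ) ≤ c * n ∧ ∀ i j : ℕ, ∃ t : ℕ, t + n ≤ m ∧
      ∀ l : ℕ, l < n → u (j + t + l) = u (i + l) := by
    intro n hn
    exact exists_of_lt u n c (by linarith) (lt_of_lt_of_le one_pos ((le_max_right N 1).trans hn))
      (lt_of_lt_of_le (hN n ((le_max_left N 1).trans hn)) hqc)
  -- only finitely many letters occur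
  have hfin : (Set.range u).Finite := by
    obtain ⟨m, -, hm⟩ := key (max N 1) le_rfl
    apply Set.Finite.subset ((Set.finite_lt_nat m).image u)
    rintro a ⟨i, rfl⟩
    obtain ⟨t, ht, hl⟩ := hm i 0
    have h1 : 1 ≤ max N 1 := le_max_right _ _
    have h2 := hl 0 (by omega)
    simp only [Nat.zero_add, Nat.add_zero] at h2
    exact ⟨t, by show t < m; omega, h2⟩
  have : Finite (Set.range u) := hfin
  obtain ⟨k, ⟨g⟩⟩ := Finite.exists_equiv_fin (Set.range u)
  set u' : ℕ → Fin k := fun i => g ⟨u i, i, rfl⟩ with hu'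
  have hiff : ∀ i j, u' i = u' j ↔ u i = u j := by
    intro i j
    rw [hu']
    simp only [EmbeddingLike.apply_eq_iff_eq, Subtype.mk.injEq]
  have H : Pool.Agent.Rauzy.Ctx u' c (max N 1) := by
    refine ⟨?_, ?_, le_max_right _ _, hc3, hcL⟩
    · rintro ⟨p, hp, h⟩
      exact hu ⟨p, hp, fun i => (hiff _ _).1 (h i)⟩
    · intro n hn i j
      obtain ⟨m, hm, hw⟩ := key n hn
      obtain ⟨t, ht, hl⟩ := hw i j
      refine ⟨t, ?_, fun l hln => (hiff _ _).2 (hl l hln)⟩
      have : ((t + n : ℕ) : ℝ) ≤ (m : ℝ) := by exact_mod_cast ht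
      linarith
  exact H.false

end Pool.Agent.Results.MP_505085_co.AnyAlphabet
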